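import Mathlib
import Pool.Agent.Y834.RV.Sharp

/-!
Roudneff's conjecture is a theorem on set systems: the bound holds for every family of subsets of an
`n`-element set which is closed under complement and shatters no set of `r + 1` elements, for balls
of every radius `k`, the topes of the alternating oriented matroid attain it, and the range of `n`
is exact.
-/

set_option autoImplicit false

namespace Pool.Agent.Results.MP_f434f5_co.VCRoudneff

open Pool.Agent.H800R3.OM Pool.Agent.H800R3.Roud Pool.Agent.Y834.RV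

lemma compl_topes {n : ℕ} {L : Set (SVec n)} (hL : IsOM L) :
    ∀ T ∈ topes L, Tᶜ ∈ topes L := fun T hT => tope_compl hL T hT

lemma shatters_topes {n : ℕ} {L : Set (SVec n)} (hL : IsOM L) {r : ℕ}
    (hr : ∀ m, HasChain L m → m ≤ r) : ∀ Y, Shatters (topes L) Y → Y.card ≤ r := by
  intro Y hY
  by_contra hcon
  push Not at hcon
  exact not_shatters (notShatter hL hr Y hcon) hY

lemma num_eq {n : ℕ} {L : Set (SVec n)} (hL : IsOM L) (k : ℕ) :
    numNeighborly L k = (centres (topes L) k).ncard := numNeighborly_eq hL k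

lemma two_pow {n r k : ℕ} (hn0 : 0 < n) (hn : n ≤ r - 2 * k) :
    2 ^ n ≤ 2 * ∑ i ∈ Finset.range (r - 2 * k), (n - 1).choose i := by
  have h2 : ∑ i ∈ Finset.range (n - 1 + 1), (n - 1).choose i = 2 ^ (n - 1) :=
    Nat.sum_range_choose (n - 1)
  have h3 : 2 ^ n = 2 * 2 ^ (n - 1) := by
    rw [← pow_succ', Nat.sub_add_cancel hn0]
  rw [h3, ← h2]
  refine Nat.mul_le_mul_left 2 (Finset.sum_le_sum_of_subset ?_)
  intro i hi
  rw [Finset.mem_range] at hi ⊢
  omega

/-- the bound, in the whole range -/
lemma all_bound {n r k : ℕ} (hn0 : 0 < n) (hk : 2 * k + 1 ≤ r)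
    (hn : k = 0 ∨ n ≤ r - 2 * k ∨ 2 * (r - k) + 1 ≤ n)
    {S : Set (Finset (Fin n))} (hc : ∀ T ∈ S, Tᶜ ∈ S) (hS : ∀ Y, Shatters S Y → Y.card ≤ r) :
    (centres S k).ncard ≤ 2 * ∑ i ∈ Finset.range (r - 2 * k), (n - 1).choose i := by
  rcases hn with h | h | h
  · exact vc_bound hk hn0 (Or.inl h) hc hS
  · refine le_trans ?_ (two_pow hn0 h)
    refine (Set.ncard_le_ncard (Set.subset_univ _) Set.finite_univ).trans ?_
    rw [Set.ncard_univ, Nat.card_eq_fintype_card, Fintype.card_finset, Fintype.card_fin]
  · exact vc_bound hk hn0 (Or.inr h) hc hS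

lemma num_bound {n r k : ℕ} (hn0 : 0 < n) (hk : 2 * k + 1 ≤ r)
    (hn : k = 0 ∨ n ≤ r - 2 * k ∨ 2 * (r - k) + 1 ≤ n)
    {L : Set (SVec n)} (hL : IsOM L) (hr : ∀ m, HasChain L m → m ≤ r) :
    numNeighborly L k ≤ 2 * ∑ i ∈ Finset.range (r - 2 * k), (n - 1).choose i := by
  rw [num_eq hL]
  exact all_bound hn0 hk hn (compl_topes hL) (shatters_topes hL hr)

lemma num_alternating {n r k : ℕ} (hn0 : 0 < n) (hk : 2 * k + 1 ≤ r)
    (hn : k = 0 ∨ n ≤ r - 2 * k ∨ 2 * (r - k) + 1 ≤ n) :
    numNeighborly (alternating r n) k = 2 * ∑ i ∈ Finset.range (r - 2 * k), (n - 1).choose i :=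
  le_antisymm (num_bound hn0 hk hn (isOM_alternating r n) fun _ h => chain_alternating h)
    (alt_ge n r k hn0 hk)

theorem result :
    -- the extremal theorem for complement-closed families of VC dimension at most `r`,
    -- with the exact range
    (∀ n r k : ℕ, 0 < n → 2 * k + 1 ≤ r →
      (IsGreatest {m : ℕ | ∃ S : Set (Finset (Fin n)), (∀ T ∈ S, Tᶜ ∈ S) ∧
        (∀ Y : Finset (Fin n), Shatters S Y → Y.card ≤ r) ∧ m = (centres S k).ncard}
        (2 * ∑ i ∈ Finset.range (r - 2 * k), (n - 1).choose i) ↔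
          k = 0 ∨ n ≤ r - 2 * k ∨ 2 * (r - k) + 1 ≤ n)) ∧
    -- the topes of an oriented matroid of rank at most `r` form such a family, and the
    -- `k`-neighborly reorientations are the centres of the balls of radius `k`
    (∀ (n : ℕ) (L : Set (SVec n)), IsOM L →
      (∀ T ∈ topes L, Tᶜ ∈ topes L) ∧
      (∀ r : ℕ, (∀ m, HasChain L m → m ≤ r) →
        ∀ Y : Finset (Fin n), Shatters (topes L) Y → Y.card ≤ r) ∧
      ∀ (k : ℕ) (A : Finset (Fin n)), KNeighborly (reorient A L) k ↔ A ∈ centres (topes L) k) ∧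
    -- the alternating oriented matroid
    (∀ n r : ℕ, IsOM (alternating r n) ∧ (∀ m, HasChain (alternating r n) m → m ≤ r) ∧
      (r ≤ n → HasRank (alternating r n) r)) ∧
    (∀ n r k : ℕ, 0 < n → 2 * k + 1 ≤ r →
      (numNeighborly (alternating r n) k = 2 * ∑ i ∈ Finset.range (r - 2 * k), (n - 1).choose i ↔
        k = 0 ∨ n ≤ r - 2 * k ∨ 2 * (r - k) + 1 ≤ n)) ∧
    -- Roudneff's conjecture for all `k` and all oriented matroids of rank at most `r`
    (∀ n r k : ℕ, 0 < n → 2 * k + 1 ≤ r → (k = 0 ∨ n ≤ r - 2 * k ∨ 2 * (r - k) + 1 ≤ n) →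
      ∀ L : Set (SVec n), IsOM L → (∀ m, HasChain L m → m ≤ r) →
        numNeighborly L k ≤ numNeighborly (alternating r n) k) ∧
    -- Roudneff's conjecture as posed
    (∀ n r : ℕ, 3 ≤ r → 2 * r - 1 ≤ n → ∀ L : Set (SVec n), IsOM L → HasRank L r →
      numNeighborly L 1 ≤ numNeighborly (alternating r n) 1) := by
  refine ⟨?_, ?_, ?_, ?_, ?_, ?_⟩
  · intro n r k hn0 hk
    constructor
    · intro h
      by_contra hcon
      have h1 : numNeighborly (alternating r n) k ≤
          2 * ∑ i ∈ Finset.range (r - 2 * k), (n - 1).choose i :=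
        h.2 ⟨topes (alternating r n), compl_topes (isOM_alternating r n),
          shatters_topes (isOM_alternating r n) fun _ h => chain_alternating h,
          num_eq (isOM_alternating r n) k⟩
      have h2 := strict (n := n) (r := r) (k := k) (by omega) hk (by omega) (by omega)
      omega
    · intro hn
      constructor
      · refine ⟨topes (alternating r n), compl_topes (isOM_alternating r n),
          shatters_topes (isOM_alternating r n) fun _ h => chain_alternating h, ?_⟩
        rw [← num_eq (isOM_alternating r n), num_alternating hn0 hk hn]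
      · rintro m ⟨S, hc, hS, rfl⟩
        exact all_bound hn0 hk hn hc hS
  · intro n L hL
    exact ⟨compl_topes hL, fun r hr => shatters_topes hL hr, fun k A => kneighborly_iff hL k A⟩
  · intro n r
    exact ⟨isOM_alternating r n, fun _ h => chain_alternating h, fun h => hasRank_alternating h⟩
  · intro n r k hn0 hk
    constructor
    · intro h
      by_contra hcon
      have h2 := strict (n := n) (r := r) (k := k) (by omega) hk (by omega) (by omega)
      omega
    · exact num_alternating hn0 hk
  · intro n r k hn0 hk hn L hL hr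
    rw [num_alternating hn0 hk hn]
    exact num_bound hn0 hk hn hL hr
  · intro n r hr hn L hL hrank
    rw [num_alternating (by omega) (by omega) (by omega)]
    exact num_bound (by omega) (by omega) (by omega) hL hrank.2

end Pool.Agent.Results.MP_f434f5_co.VCRoudneff
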